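import Pool.Agent.Helper92.TN.GoalsF
import Pool.Agent.Helper90.T3.SUBF

/-!
# PROJECT TN (MP_a41896_nt), packet TRC: the trace of a point
-/

set_option autoImplicit false

open Polynomial

namespace Pool.Agent.Helper51.TN.TRC

open WeierstrassCurve
open Pool.Agent.Helper29.BL Pool.Agent.Helper42.SG
open Pool.Agent.Helper60.T3 (WL IP zd)
open Pool.Agent.Helper90.T3.SUBF (ip_some)

noncomputable section

/-- the derivation of a polynomial expression -/
theorem D_aeval {K Ω : Type} [Field K] [Field Ω] [Algebra K Ω] (F : IntermediateField K Ω)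
    (D : Derivation K Ω Ω) (hF : ∀ z ∈ F, D z ∈ F) (q : F[X]) : ∃ q' : F[X], ∀ z : Ω,
    D (aeval z q) = aeval z q' + aeval z (derivative q) * D z := by
  induction q using Polynomial.induction_on' with
  | add p q hp hq =>
    obtain ⟨p', hp'⟩ := hp
    obtain ⟨q', hq'⟩ := hq
    refine ⟨p' + q', fun z => ?_⟩
    rw [map_add, map_add, hp', hq', map_add, map_add, map_add]
    ring
  | monomial n a =>
    refine ⟨monomial n ⟨D a, hF a a.2⟩, fun z => ?_⟩
    rw [aeval_monomial, aeval_monomial, derivative_monomial, aeval_monomial, Derivation.leibniz,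
      Derivation.leibniz_pow]
    have e1 : algebraMap F Ω a = (a : Ω) := rfl
    have e2 : algebraMap F Ω ⟨D a, hF a a.2⟩ = D a := rfl
    rw [e1, e2, map_mul, e1, map_natCast]
    simp only [smul_eq_mul, nsmul_eq_mul]
    ring

/-- a derivation commutes with embeddings of an algebraic extension -/
theorem D_comm {K Ω : Type} [Field K] [CharZero K] [Field Ω] [Algebra K Ω]
    (F : IntermediateField K Ω) (D : Derivation K Ω Ω) (hF : ∀ z ∈ F, D z ∈ F)
    (N : IntermediateField F Ω) (z : N) (hz : _root_.IsIntegral F z) :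
    ∃ w : N, ∀ σ : N →ₐ[F] Ω, D (σ z) = σ w := by
  have : CharZero F := charZero_of_injective_algebraMap (algebraMap K F).injective
  obtain ⟨q', hq'⟩ := D_aeval F D hF (minpoly F z)
  have hs : (minpoly F z).Separable := (minpoly.irreducible hz).separable
  have hne : aeval z (derivative (minpoly F z)) ≠ 0 :=
    hs.aeval_derivative_ne_zero (minpoly.aeval F z)
  refine ⟨-(aeval z q') / aeval z (derivative (minpoly F z)), fun σ => ?_⟩
  have a1 : ∀ p : F[X], aeval (σ z) p = σ (aeval z p) := fun p => aeval_algHom_apply σ z p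
  have h1 := hq' (σ z)
  rw [a1, a1, a1, minpoly.aeval, map_zero, map_zero] at h1
  have hne' : σ (aeval z (derivative (minpoly F z))) ≠ 0 := by
    rw [Ne, map_eq_zero]
    exact hne
  rw [map_div₀, map_neg, eq_div_iff hne']
  linear_combination -h1

theorem t : Pool.Agent.Helper60.T3.S_DADD → Pool.Agent.Helper92.TN.TRC := by
  intro hDADD K Ω _ _ _ _ _ _ W _ F D P hF hP hx hα
  have : CharZero F := charZero_of_injective_algebraMap (algebraMap K F).injective
  have : CharZero Ω := charZero_of_injective_algebraMap (algebraMap K Ω).injective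
  -- the additive function
  let Z : (WL Ω W).Point →+ Ω :=
    { toFun := fun Q => zd D Q
      map_zero' := by
        show D (xc (0 : (WL Ω W).Point)) / ps (0 : (WL Ω W).Point) = 0
        rw [xc_zero, map_zero, zero_div]
      map_add' := fun Q R => hDADD K Ω W D Q R }
  rcases P with _ | ⟨x, y, h⟩
  · exact absurd rfl hP
  have hx' : IsAlgebraic F x := hx
  -- `y` is algebraic
  have hc : ∀ c : K, _root_.IsIntegral F (algebraMap K Ω c) := fun c => by
    rw [IsScalarTower.algebraMap_apply K F Ω]
    exact isIntegral_algebraMap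
  have hxi : _root_.IsIntegral F x := hx'.isIntegral
  have hψ : _root_.IsIntegral F (2 * y + (WL Ω W).a₁ * x + (WL Ω W).a₃) := by
    have h1 : (2 * y + (WL Ω W).a₁ * x + (WL Ω W).a₃) ^ 2 = 4 * x ^ 3 + (WL Ω W).b₂ * x ^ 2 +
        2 * (WL Ω W).b₄ * x + (WL Ω W).b₆ := by
      have h2 := ((WL Ω W).equation_iff x y).1 h.1
      rw [WeierstrassCurve.b₂, WeierstrassCurve.b₄, WeierstrassCurve.b₆]
      linear_combination 4 * h2
    have h3 : _root_.IsIntegral F ((2 * y + (WL Ω W).a₁ * x + (WL Ω W).a₃) ^ 2) := by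
      rw [h1]
      have b2 : _root_.IsIntegral F (WL Ω W).b₂ := by
        rw [WeierstrassCurve.map_b₂]
        exact hc _
      have b4 : _root_.IsIntegral F (WL Ω W).b₄ := by
        rw [WeierstrassCurve.map_b₄]
        exact hc _
      have b6 : _root_.IsIntegral F (WL Ω W).b₆ := by
        rw [WeierstrassCurve.map_b₆]
        exact hc _
      have n4 : _root_.IsIntegral F (4 : Ω) := by
        have := hc 4
        rwa [map_ofNat] at this
      have n2 : _root_.IsIntegral F (2 : Ω) := by
        have := hc 2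
        rwa [map_ofNat] at this
      exact (((n4.mul (hxi.pow 3)).add (b2.mul (hxi.pow 2))).add ((n2.mul b4).mul hxi)).add b6
    exact IsIntegral.of_pow two_pos h3
  have hy : _root_.IsIntegral F y := by
    have e : y = algebraMap K Ω (1 / 2) * ((2 * y + (WL Ω W).a₁ * x + (WL Ω W).a₃) -
        algebraMap K Ω W.a₁ * x - algebraMap K Ω W.a₃) := by
      have e1 : (WL Ω W).a₁ = algebraMap K Ω W.a₁ := rfl
      have e2 : (WL Ω W).a₃ = algebraMap K Ω W.a₃ := rfl
      rw [e1, e2, map_div₀, map_one, map_ofNat]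
      ring
    rw [e]
    exact (hc _).mul ((hψ.sub ((hc _).mul hxi)).sub (hc _))
  -- the normal closure
  let q : F[X] := minpoly F x * minpoly F y
  have hq : q ≠ 0 := mul_ne_zero (minpoly.ne_zero hxi) (minpoly.ne_zero hy)
  let N : IntermediateField F Ω := IntermediateField.adjoin F (q.rootSet Ω)
  have hsp : q.IsSplittingField F N :=
    IntermediateField.adjoin_rootSet_isSplittingField (IsAlgClosed.splits _)
  have hfd : FiniteDimensional F N := Polynomial.IsSplittingField.finiteDimensional N q
  have hnor : Normal F N := Normal.of_isSplittingField q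
  have hgal : IsGalois F N := ⟨⟩
  have hxN : x ∈ N := by
    apply IntermediateField.subset_adjoin
    rw [mem_rootSet]
    refine ⟨hq, ?_⟩
    rw [map_mul, minpoly.aeval, zero_mul]
  have hyN : y ∈ N := by
    apply IntermediateField.subset_adjoin
    rw [mem_rootSet]
    refine ⟨hq, ?_⟩
    rw [map_mul, minpoly.aeval F y, mul_zero]
  -- the points over `N`
  have : DecidableEq N := Classical.decEq N
  let ι : N →ₐ[K] Ω := N.val.restrictScalars K
  let sK : (N ≃ₐ[F] N) → (N →ₐ[K] N) := fun s => (s : N →ₐ[F] N).restrictScalars K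
  let xN : N := ⟨x, hxN⟩
  let yN : N := ⟨y, hyN⟩
  have hns : (WL N W).Nonsingular xN yN :=
    (W.baseChange_nonsingular (f := ι) ι.injective xN yN).1 h
  let PN : (WL N W).Point := Affine.Point.some xN yN hns
  let m : (N ≃ₐ[F] N) → (WL N W).Point →+ (WL N W).Point := fun s =>
    Affine.Point.map (W' := W) (sK s)
  let mi : (WL N W).Point →+ (WL Ω W).Point := Affine.Point.map (W' := W) ι
  have : Fintype (N ≃ₐ[F] N) := Fintype.ofFinite _
  let SN : (WL N W).Point := ∑ s, m s PN
  have hfix : ∀ u, m u SN = SN := by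
    intro u
    have e1 : m u SN = ∑ s, m (u * s) PN := by
      show m u (∑ s, m s PN) = _
      rw [map_sum]
      exact Finset.sum_congr rfl fun s _ => Affine.Point.map_map _ _ _
    rw [e1]
    exact Fintype.sum_equiv (Equiv.mulLeft u) _ _ fun s => rfl
  refine ⟨Fintype.card (N ≃ₐ[F] N), mi SN, Fintype.card_ne_zero, ?_, ?_⟩
  · -- the coordinates are in `F`
    rcases hS : SN with _ | ⟨X, Y, hXY⟩
    · exact Or.inl rfl
    · rw [hS] at hfix
      have hX : ∀ u : N ≃ₐ[F] N, u X = X := fun u => by
        have := hfix u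
        exact (Affine.Point.some.inj this).1
      have hY : ∀ u : N ≃ₐ[F] N, u Y = Y := fun u => by
        have := hfix u
        exact (Affine.Point.some.inj this).2
      obtain ⟨X', hX'⟩ := (IsGalois.mem_range_algebraMap_iff_fixed X).2 hX
      obtain ⟨Y', hY'⟩ := (IsGalois.mem_range_algebraMap_iff_fixed Y).2 hY
      have e1 : (X : Ω) ∈ F := by
        rw [← hX']
        exact X'.2
      have e2 : (Y : Ω) ∈ F := by
        rw [← hY']
        exact Y'.2
      exact (ip_some _).2 ⟨e1, e2⟩
  · -- the value of `z'`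
    obtain ⟨w, hw⟩ := D_comm F D hF N xN (Algebra.IsIntegral.isIntegral xN)
    let ψN : N := 2 * yN + (WL N W).a₁ * xN + (WL N W).a₃
    have hval : ∀ s : N ≃ₐ[F] N, Z (mi (m s PN)) = zd D (Affine.Point.some x y h) := by
      intro s
      let σ : N →ₐ[F] Ω := N.val.comp (s : N →ₐ[F] N)
      have e1 : Z (mi (m s PN)) = D (σ xN) / (σ ψN) := by
        show D (σ xN) / (2 * σ yN + (WL Ω W).a₁ * σ xN + (WL Ω W).a₃) = _
        have c : ∀ a : K, algebraMap K Ω a = σ (algebraMap K N a) := fun a =>
          ((σ.restrictScalars K).commutes a).symm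
        have e4 : 2 * σ yN + (WL Ω W).a₁ * σ xN + (WL Ω W).a₃ = σ ψN := by
          show 2 * σ yN + algebraMap K Ω W.a₁ * σ xN + algebraMap K Ω W.a₃ =
            σ (2 * yN + algebraMap K N W.a₁ * xN + algebraMap K N W.a₃)
          rw [c, c, map_add, map_add, map_mul, map_mul, map_ofNat]
        rw [e4]
      have e3 : w / ψN = algebraMap F N ⟨_, hα⟩ := by
        have h9 : N.val (w / ψN) = N.val (algebraMap F N ⟨_, hα⟩) := by
          rw [map_div₀, ← hw N.val]
          rfl
        exact Subtype.ext h9
      rw [e1, hw, ← map_div₀, e3, AlgHom.commutes]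
      rfl
    have h5 : Z (mi SN) = ∑ s, Z (mi (m s PN)) := by
      show Z (mi (∑ s, m s PN)) = _
      rw [map_sum, map_sum]
    show Z (mi SN) = _
    rw [h5, Finset.sum_congr rfl fun s _ => hval s, Finset.sum_const, Finset.card_univ,
      nsmul_eq_mul]

end

end Pool.Agent.Helper51.TN.TRC
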